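import Mathlib

/-!
# MP_288038_co : relaxation complexity versus the hiding set bound

In dimension 3 the difference `rc(X) - H(X)` is unbounded.

Construction.  Take a large lattice-convex body with `m` long vertical facets and put on the
middle of every facet plane a single unit parallelogram (cap).  All points outside `X` in or
beyond the `k`-th facet plane contain at most two pairwise hiding points (as for `{0,1}²`), so
`H(X) ≤ 2 m + 5`; but around each cap there is a 5-cycle of hiding pairs, points near different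
caps hide each other through the body, and hence every relaxation needs `3 m` inequalities.
-/

namespace Pool.Agent.Results.MP_288038_co.HidingGap

open Finset

/-! ### Definitions -/

/-- The inclusion `ℤ^d → ℝ^d`. -/
def toR {d : ℕ} (x : Fin d → ℤ) : Fin d → ℝ := fun i => (x i : ℝ)

/-- `conv(X)`. -/
def conv {d : ℕ} (X : Set (Fin d → ℤ)) : Set (Fin d → ℝ) := convexHull ℝ (toR '' X)

/-- `conv(X) ∩ ℤ^d = X`. -/
def LatticeConvex {d : ℕ} (X : Set (Fin d → ℤ)) : Prop := ∀ x, toR x ∈ conv X ↔ x ∈ X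

/-- `dim aff(X) = d`. -/
def FullDim {d : ℕ} (X : Set (Fin d → ℤ)) : Prop := affineSpan ℝ (toR '' X) = ⊤

/-- The polyhedron `{x | A x ≤ b}`. -/
def Poly {n d : ℕ} (A : Matrix (Fin n) (Fin d) ℝ) (b : Fin n → ℝ) : Set (Fin d → ℝ) :=
  {x | ∀ i, ∑ j, A i j * x j ≤ b i}

/-- The integer points of `P` are exactly those of `X`. -/
def IsRelaxation {d : ℕ} (P : Set (Fin d → ℝ)) (X : Set (Fin d → ℤ)) : Prop :=
  ∀ x : Fin d → ℤ, toR x ∈ P ↔ x ∈ X

/-- Relaxation complexity: least number of inequalities describing a relaxation. -/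
noncomputable def rc {d : ℕ} (X : Set (Fin d → ℤ)) : ℕ :=
  sInf {n | ∃ (A : Matrix (Fin n) (Fin d) ℝ) (b : Fin n → ℝ), IsRelaxation (Poly A b) X}

/-- Hiding sets of `X`. -/
def IsHiding {d : ℕ} (X : Set (Fin d → ℤ)) (H : Finset (Fin d → ℤ)) : Prop :=
  (∀ p ∈ H, p ∉ X) ∧
    ∀ p ∈ H, ∀ q ∈ H, p ≠ q → (segment ℝ (toR p) (toR q) ∩ conv X).Nonempty

/-- The hiding set bound. -/
noncomputable def hidingBound {d : ℕ} (X : Set (Fin d → ℤ)) : ℕ :=
  sSup {n | ∃ H : Finset (Fin d → ℤ), IsHiding X H ∧ H.card = n}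

/-! ### The construction -/

/-- Spacing of the caps. -/
def D (m : ℕ) : ℤ := 2 * m + 10

/-- Height of the body. -/
def M (m : ℕ) : ℤ := m ^ 2 * D m ^ 2 + 4 * m * D m

/-- A large constant. -/
def C (m : ℕ) : ℤ := (m + 1) * D m

/-- The `k`-th facet functional. -/
def phi (m : ℕ) (k : ℤ) (x y : ℤ) : ℤ := y - 2 * k * D m * x + k ^ 2 * D m ^ 2

/-- The body. -/
def Base (m : ℕ) (p : Fin 3 → ℤ) : Prop :=
  -D m ≤ p 0 ∧ p 0 ≤ m * D m ∧ p 1 ≤ M m ∧ 0 ≤ p 2 ∧ p 2 ≤ 3 ∧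
    ∀ k : ℕ, k < m → 1 ≤ phi m k (p 0) (p 1)

/-- The `k`-th cap. -/
def Cap (m : ℕ) (k : ℤ) (p : Fin 3 → ℤ) : Prop :=
  k * D m ≤ p 0 ∧ p 0 ≤ k * D m + 1 ∧ phi m k (p 0) (p 1) = 0 ∧ 1 ≤ p 2 ∧ p 2 ≤ 2

/-- The set `X`. -/
def X (m : ℕ) : Set (Fin 3 → ℤ) := {p | Base m p ∨ ∃ k : ℕ, k < m ∧ Cap m k p}


lemma D_ge (m : ℕ) : 2 * (m : ℤ) + 10 ≤ D m := le_of_eq rfl

lemma D_ge10 (m : ℕ) : 10 ≤ D m := by
  have := D_ge m
  omega

/-- Points of the `j`-th facet plane near its cap are far above the `k`-th plane. -/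
lemma sep (m : ℕ) {j k : ℤ} (hjk : j ≠ k) {x y : ℤ} (h1 : j * D m - 1 ≤ x)
    (h2 : x ≤ j * D m + 2) (h : phi m j x y = 0) : D m ^ 2 - 4 * D m ≤ phi m k x y := by
  obtain ⟨ε, rfl⟩ : ∃ ε, x = j * D m + ε := ⟨x - j * D m, by ring⟩
  have hD := D_ge10 m
  have e1 : -1 ≤ ε := by linarith
  have e2 : ε ≤ 2 := by linarith
  unfold phi at h ⊢
  have hy : y = 2 * j * D m * (j * D m + ε) - j ^ 2 * D m ^ 2 := by linarith
  subst hy
  generalize hE : D m = E at *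
  obtain ⟨s, rfl⟩ : ∃ s, j = k + s := ⟨j - k, by ring⟩
  have hs : s ≠ 0 := by
    rintro rfl
    exact hjk (by ring)
  have key : 2 * (k + s) * E * ((k + s) * E + ε) - (k + s) ^ 2 * E ^ 2 -
      2 * k * E * ((k + s) * E + ε) + k ^ 2 * E ^ 2 = (E * s) ^ 2 + 2 * (E * s) * ε := by ring
  rw [key]
  rcases lt_or_gt_of_ne hs with h' | h'
  · have hu : E ≤ E * (-s) := by nlinarith
    generalize hw : E * (-s) = u at hu
    have : E * s = -u := by rw [← hw]; ring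
    rw [this]
    nlinarith
  · have hu : E ≤ E * s := by nlinarith
    generalize hw : E * s = u at hu
    nlinarith

lemma base_phi {m : ℕ} {p : Fin 3 → ℤ} (hp : Base m p) {k : ℕ} (hk : k < m) :
    1 ≤ phi m k (p 0) (p 1) := hp.2.2.2.2.2 k hk

lemma cap_sep {m : ℕ} {p : Fin 3 → ℤ} {j k : ℕ} (hp : Cap m j p) (hjk : j ≠ k) :
    1 ≤ phi m k (p 0) (p 1) := by
  obtain ⟨h1, h2, h3, _, _⟩ := hp
  have h := sep m (j := (j : ℤ)) (k := (k : ℤ)) (by exact_mod_cast hjk) (by linarith)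
    (by linarith) h3
  have hD := D_ge10 m
  nlinarith

/-- Bounds valid on `X`. -/
lemma X_box {m : ℕ} {p : Fin 3 → ℤ} (hp : p ∈ X m) :
    -D m ≤ p 0 ∧ p 0 ≤ m * D m ∧ p 1 ≤ M m ∧ 0 ≤ p 2 ∧ p 2 ≤ 3 := by
  rcases hp with h | ⟨k, hk, h1, h2, h3, h4, h5⟩
  · exact ⟨h.1, h.2.1, h.2.2.1, h.2.2.2.1, h.2.2.2.2.1⟩
  · have hD := D_ge10 m
    have hk' : (k : ℤ) + 1 ≤ m := by exact_mod_cast hk
    have hk0 : (0 : ℤ) ≤ k := by positivity
    refine ⟨by nlinarith, by nlinarith, ?_, by omega, by omega⟩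
    unfold phi at h3
    unfold M
    generalize D m = E at *
    generalize (k : ℤ) = K at *
    generalize (m : ℤ) = N at *
    have a1 : 2 * K * E * p 0 ≤ 2 * K * E * (K * E + 1) :=
      mul_le_mul_of_nonneg_left h2 (by positivity)
    have a2 : (K * E) ^ 2 ≤ (N * E) ^ 2 := by
      apply pow_le_pow_left₀ (by positivity)
      nlinarith
    have a3 : K * E ≤ N * E := by nlinarith
    have a4 : 0 ≤ K * E := by positivity
    nlinarith

lemma X_phi {m : ℕ} {p : Fin 3 → ℤ} (hp : p ∈ X m) {k : ℕ} (hk : k < m) :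
    0 ≤ phi m k (p 0) (p 1) := by
  rcases hp with h | ⟨j, hj, h⟩
  · have := base_phi h hk
    omega
  · by_cases hjk : j = k
    · subst hjk
      exact h.2.2.1.ge
    · have := cap_sep h hjk
      omega

lemma X_aug {m : ℕ} {p : Fin 3 → ℤ} (hp : p ∈ X m) {k : ℕ} (hk : k < m) :
    p 0 ≤ k * D m + 1 + C m * phi m k (p 0) (p 1) ∧
    k * D m - C m * phi m k (p 0) (p 1) ≤ p 0 ∧
    p 2 ≤ 2 + C m * phi m k (p 0) (p 1) ∧
    1 - C m * phi m k (p 0) (p 1) ≤ p 2 := by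
  have hD := D_ge10 m
  have hk' : (k : ℤ) + 1 ≤ m := by exact_mod_cast hk
  have hk0 : (0 : ℤ) ≤ k := by positivity
  have hC : 0 ≤ C m := by unfold C; positivity
  obtain ⟨b1, b2, b3, b4, b5⟩ := X_box hp
  have main : 1 ≤ phi m k (p 0) (p 1) → _ := fun h1 => by
    have h2 : C m ≤ C m * phi m k (p 0) (p 1) := by nlinarith
    have h3 : C m = m * D m + D m := by unfold C; ring
    have h4 : 0 ≤ (k : ℤ) * D m := by positivity
    have h5 : (k : ℤ) * D m ≤ m * D m := by nlinarith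
    have h6 : (k : ℤ) * D m + D m ≤ m * D m := by nlinarith
    have h7 : 0 ≤ (m : ℤ) * D m := by positivity
    exact (⟨by linarith, by linarith, by linarith, by linarith⟩ :
      p 0 ≤ k * D m + 1 + C m * phi m k (p 0) (p 1) ∧
      k * D m - C m * phi m k (p 0) (p 1) ≤ p 0 ∧
      p 2 ≤ 2 + C m * phi m k (p 0) (p 1) ∧
      1 - C m * phi m k (p 0) (p 1) ≤ p 2)
  rcases hp with h | ⟨j, hj, h⟩
  · exact main (base_phi h hk)
  · by_cases hjk : j = k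
    · subst hjk
      obtain ⟨h1, h2, h3, h4, h5⟩ := h
      rw [h3]
      exact ⟨by linarith, by linarith, by linarith, by linarith⟩
    · exact main (cap_sep h hjk)

/-- Conversely these bounds characterise `X`. -/
lemma X_of {m : ℕ} {p : Fin 3 → ℤ}
    (hb : -D m ≤ p 0 ∧ p 0 ≤ m * D m ∧ p 1 ≤ M m ∧ 0 ≤ p 2 ∧ p 2 ≤ 3)
    (h0 : ∀ k : ℕ, k < m → 0 ≤ phi m k (p 0) (p 1))
    (ha : ∀ k : ℕ, k < m → p 0 ≤ k * D m + 1 + C m * phi m k (p 0) (p 1) ∧
      k * D m - C m * phi m k (p 0) (p 1) ≤ p 0 ∧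
      p 2 ≤ 2 + C m * phi m k (p 0) (p 1) ∧
      1 - C m * phi m k (p 0) (p 1) ≤ p 2) : p ∈ X m := by
  by_cases h : ∀ k : ℕ, k < m → 1 ≤ phi m k (p 0) (p 1)
  · left
    exact ⟨hb.1, hb.2.1, hb.2.2.1, hb.2.2.2.1, hb.2.2.2.2, h⟩
  · push Not at h
    obtain ⟨k, hk, hlt⟩ := h
    have hz : phi m k (p 0) (p 1) = 0 := by
      have := h0 k hk
      omega
    obtain ⟨a1, a2, a3, a4⟩ := ha k hk
    rw [hz] at a1 a2 a3 a4
    right
    exact ⟨k, hk, by linarith, by linarith, hz, by linarith, by linarith⟩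


/-! ### An explicit relaxation -/

/-- Index set of the inequalities. -/
abbrev Idx (m : ℕ) := Fin 5 ⊕ (Fin m × Fin 5)

/-- Coefficients. -/
def co (m : ℕ) : Idx m → Fin 3 → ℤ
  | Sum.inl i => ![![-1, 0, 0], ![1, 0, 0], ![0, 1, 0], ![0, 0, -1], ![0, 0, 1]] i
  | Sum.inr (k, i) =>
      ![![2 * (k : ℤ) * D m, -1, 0],
        ![1 + C m * (2 * (k : ℤ) * D m), -C m, 0],
        ![-1 + C m * (2 * (k : ℤ) * D m), -C m, 0],
        ![C m * (2 * (k : ℤ) * D m), -C m, 1],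
        ![C m * (2 * (k : ℤ) * D m), -C m, -1]] i

/-- Right hand sides. -/
def rh (m : ℕ) : Idx m → ℤ
  | Sum.inl i => ![D m, m * D m, M m, 0, 3] i
  | Sum.inr (k, i) =>
      ![(k : ℤ) ^ 2 * D m ^ 2,
        (k : ℤ) * D m + 1 + C m * ((k : ℤ) ^ 2 * D m ^ 2),
        -((k : ℤ) * D m) + C m * ((k : ℤ) ^ 2 * D m ^ 2),
        2 + C m * ((k : ℤ) ^ 2 * D m ^ 2),
        -1 + C m * ((k : ℤ) ^ 2 * D m ^ 2)] i

lemma mem_iff (m : ℕ) (p : Fin 3 → ℤ) :
    p ∈ X m ↔ ∀ i : Idx m, ∑ j, co m i j * p j ≤ rh m i := by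
  constructor
  · intro hp i
    obtain ⟨b1, b2, b3, b4, b5⟩ := X_box hp
    rcases i with i | ⟨k, i⟩
    · fin_cases i <;> simp [co, rh, Fin.sum_univ_three] <;> linarith
    · have h0 := X_phi hp k.2
      obtain ⟨a1, a2, a3, a4⟩ := X_aug hp k.2
      unfold phi at h0 a1 a2 a3 a4
      fin_cases i <;> simp [co, rh, Fin.sum_univ_three] <;> linarith
  · intro h
    have e0 := h (Sum.inl 0)
    have e1 := h (Sum.inl 1)
    have e2 := h (Sum.inl 2)
    have e3 := h (Sum.inl 3)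
    have e4 := h (Sum.inl 4)
    simp [co, rh, Fin.sum_univ_three] at e0 e1 e2 e3 e4
    refine X_of ⟨by linarith, by linarith, by linarith, by linarith, by linarith⟩ ?_ ?_
    · intro k hk
      have f0 := h (Sum.inr (⟨k, hk⟩, 0))
      simp [co, rh, Fin.sum_univ_three] at f0
      unfold phi
      linarith
    · intro k hk
      have f1 := h (Sum.inr (⟨k, hk⟩, 1))
      have f2 := h (Sum.inr (⟨k, hk⟩, 2))
      have f3 := h (Sum.inr (⟨k, hk⟩, 3))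
      have f4 := h (Sum.inr (⟨k, hk⟩, 4))
      simp [co, rh, Fin.sum_univ_three] at f1 f2 f3 f4
      unfold phi
      refine ⟨by linarith, by linarith, by linarith, by linarith⟩

/-- Linear inequalities valid on `X` are valid on `conv X`. -/
lemma conv_le {d : ℕ} {Y : Set (Fin d → ℤ)} (a : Fin d → ℝ) (b : ℝ)
    (h : ∀ p ∈ Y, ∑ j, a j * (p j : ℝ) ≤ b) {s : Fin d → ℝ} (hs : s ∈ conv Y) :
    ∑ j, a j * s j ≤ b := by
  have hconv : Convex ℝ {s : Fin d → ℝ | ∑ j, a j * s j ≤ b} := by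
    intro x hx y hy α β hα hβ hαβ
    simp only [Set.mem_ofPred_eq] at hx hy ⊢
    have : ∑ j, a j * (α • x + β • y) j = α * ∑ j, a j * x j + β * ∑ j, a j * y j := by
      rw [Finset.mul_sum, Finset.mul_sum, ← Finset.sum_add_distrib]
      refine Finset.sum_congr rfl (fun j _ => ?_)
      simp only [Pi.add_apply, Pi.smul_apply, smul_eq_mul]
      ring
    rw [this]
    calc α * ∑ j, a j * x j + β * ∑ j, a j * y j ≤ α * b + β * b := by
          gcongr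
      _ = b := by rw [← add_mul, hαβ, one_mul]
  have hsub : toR '' Y ⊆ {s : Fin d → ℝ | ∑ j, a j * s j ≤ b} := by
    rintro _ ⟨p, hp, rfl⟩
    exact h p hp
  exact convexHull_min hsub hconv hs

lemma conv_idx {m : ℕ} {s : Fin 3 → ℝ} (hs : s ∈ conv (X m)) (i : Idx m) :
    ∑ j, (co m i j : ℝ) * s j ≤ rh m i := by
  refine conv_le (fun j => (co m i j : ℝ)) (rh m i) ?_ hs
  intro p hp
  exact_mod_cast (mem_iff m p).1 hp i

lemma lattice_convex (m : ℕ) : LatticeConvex (X m) := by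
  intro x
  constructor
  · intro h
    rw [mem_iff]
    intro i
    have := conv_idx h i
    unfold toR at this
    exact_mod_cast this
  · intro h
    exact subset_convexHull ℝ _ ⟨x, h, rfl⟩

lemma exists_relax (m : ℕ) : ∃ (n : ℕ) (A : Matrix (Fin n) (Fin 3) ℝ) (b : Fin n → ℝ),
    IsRelaxation (Poly A b) (X m) := by
  let e := (Fintype.equivFin (Idx m)).symm
  refine ⟨Fintype.card (Idx m), fun i j => (co m (e i) j : ℝ), fun i => (rh m (e i) : ℝ), ?_⟩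
  intro x
  rw [mem_iff]
  constructor
  · intro h i
    have := h (e.symm i)
    simp only [Equiv.apply_symm_apply] at this
    unfold toR at this
    exact_mod_cast this
  · intro h i
    have := h (e i)
    change ∑ j, (co m (e i) j : ℝ) * (x j : ℝ) ≤ (rh m (e i) : ℝ)
    exact_mod_cast this

lemma finite_X {m : ℕ} (hm : 0 < m) : (X m).Finite := by
  refine (Set.finite_Icc (![-D m, 0, 0] : Fin 3 → ℤ) ![m * D m, M m, 3]).subset ?_
  intro p hp
  obtain ⟨b1, b2, b3, b4, b5⟩ := X_box hp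
  have h0 := X_phi hp hm
  unfold phi at h0
  simp at h0
  rw [Set.mem_Icc]
  constructor
  · intro i
    fin_cases i <;> simp <;> linarith
  · intro i
    fin_cases i <;> simp <;> linarith

lemma M_pos {m : ℕ} (hm : 0 < m) : 2 ≤ M m := by
  have hD := D_ge10 m
  have h1 : (1 : ℤ) ≤ m := by exact_mod_cast hm
  unfold M
  nlinarith [mul_pos (by linarith : (0 : ℤ) < m) (by linarith : (0 : ℤ) < D m),
    sq_nonneg ((m : ℤ) * D m)]

lemma corner {m : ℕ} (hm : 0 < m) (x y z : ℤ) (hx : x = 0 ∨ x = 1) (hy : y = M m ∨ y = M m - 1)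
    (hz : z = 0 ∨ z = 1) : ![x, y, z] ∈ X m := by
  left
  have hD := D_ge10 m
  have h1 : (1 : ℤ) ≤ m := by exact_mod_cast hm
  have hM := M_pos hm
  have hmD : 0 ≤ (m : ℤ) * D m - 1 := by nlinarith
  refine ⟨?_, ?_, ?_, ?_, ?_, ?_⟩
  · simp; omega
  · simp; rcases hx with rfl | rfl <;> linarith
  · simp; omega
  · simp; omega
  · simp; omega
  · intro k hk
    simp only [Matrix.cons_val_zero, Matrix.cons_val_one]
    unfold phi
    have hk0 : (0 : ℤ) ≤ k := by positivity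
    have h2 : 0 ≤ (k : ℤ) ^ 2 * D m ^ 2 - 2 * k * D m := by
      rcases Nat.eq_zero_or_pos k with h | h
      · subst h; simp
      · have h3 : (1 : ℤ) ≤ k := by exact_mod_cast h
        have h4 : 10 ≤ (k : ℤ) * D m := by nlinarith
        nlinarith
    have h5 : 0 ≤ (k : ℤ) ^ 2 * D m ^ 2 := by positivity
    rcases hx with rfl | rfl
    · rcases hy with rfl | rfl <;> simp <;> linarith
    · rcases hy with rfl | rfl <;> simp <;> linarith

lemma full_dim {m : ℕ} (hm : 0 < m) : FullDim (X m) := by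
  unfold FullDim
  rw [eq_top_iff]
  intro q _
  set S := affineSpan ℝ (toR '' X m) with hS
  have c0 : toR ![0, M m, 0] ∈ S := mem_affineSpan ℝ ⟨_, corner hm 0 (M m) 0 (by simp) (by simp)
    (by simp), rfl⟩
  have c1 : toR ![1, M m, 0] ∈ S := mem_affineSpan ℝ ⟨_, corner hm 1 (M m) 0 (by simp) (by simp)
    (by simp), rfl⟩
  have c2 : toR ![0, M m - 1, 0] ∈ S := mem_affineSpan ℝ ⟨_, corner hm 0 (M m - 1) 0 (by simp)
    (by simp) (by simp), rfl⟩
  have c3 : toR ![0, M m, 1] ∈ S := mem_affineSpan ℝ ⟨_, corner hm 0 (M m) 1 (by simp) (by simp)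
    (by simp), rfl⟩
  have s1 := S.smul_vsub_vadd_mem (q 0) c1 c0 c0
  have s2 := S.smul_vsub_vadd_mem ((M m : ℝ) - q 1) c2 c0 s1
  have s3 := S.smul_vsub_vadd_mem (q 2) c3 c0 s2
  convert s3 using 1
  funext i
  fin_cases i <;> simp [toR]


/-! ### Hiding sets are small -/

/-- Two points beyond the same valid inequality do not hide each other. -/
lemma not_hide {d : ℕ} {Y : Set (Fin d → ℤ)} {p q : Fin d → ℤ} (a : Fin d → ℝ) (b : ℝ)
    (h : ∀ x ∈ Y, ∑ j, a j * (x j : ℝ) ≤ b) (hp : b < ∑ j, a j * (p j : ℝ))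
    (hq : b < ∑ j, a j * (q j : ℝ)) : ¬ (segment ℝ (toR p) (toR q) ∩ conv Y).Nonempty := by
  rintro ⟨s, ⟨α, β, hα, hβ, hαβ, rfl⟩, hs⟩
  have h1 := conv_le a b h hs
  have h2 : ∑ j, a j * (α • toR p + β • toR q) j =
      α * ∑ j, a j * (p j : ℝ) + β * ∑ j, a j * (q j : ℝ) := by
    rw [Finset.mul_sum, Finset.mul_sum, ← Finset.sum_add_distrib]
    refine Finset.sum_congr rfl (fun j _ => ?_)
    simp only [Pi.add_apply, Pi.smul_apply, smul_eq_mul, toR]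
    ring
  rw [h2] at h1
  generalize (∑ j, a j * (p j : ℝ)) = P at hp h1
  generalize (∑ j, a j * (q j : ℝ)) = Q at hq h1
  have e : b = α * b + β * b := by rw [← add_mul, hαβ, one_mul]
  rcases hα.lt_or_eq with h0 | h0
  · have h3 := mul_pos h0 (sub_pos.2 hp)
    have h4 := mul_nonneg hβ (sub_pos.2 hq).le
    rw [mul_sub] at h3 h4
    linarith
  · rw [← h0, zero_add] at hαβ
    rw [← h0, hαβ] at h1
    linarith

/-- The constraints on hiding pairs in a facet plane. -/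
def PC (u a1 a2 b1 b2 : ℤ) : Prop :=
  ¬ (a1 ≤ u ∧ b1 ≤ u ∧ a1 + b1 < 2 * u) ∧ ¬ (u + 1 ≤ a1 ∧ u + 1 ≤ b1 ∧ 2 * u + 2 < a1 + b1) ∧
  ¬ (a2 ≤ 1 ∧ b2 ≤ 1 ∧ a2 + b2 < 2) ∧ ¬ (2 ≤ a2 ∧ 2 ≤ b2 ∧ 4 < a2 + b2)

lemma key2 (a2 b2 c2 : ℤ) (ha : a2 ≤ 0 ∨ 3 ≤ a2) (hb : b2 ≤ 0 ∨ 3 ≤ b2)
    (h1 : ¬ (a2 ≤ 1 ∧ b2 ≤ 1 ∧ a2 + b2 < 2)) (h2 : ¬ (2 ≤ a2 ∧ 2 ≤ b2 ∧ 4 < a2 + b2))
    (h3 : ¬ (a2 ≤ 1 ∧ c2 ≤ 1 ∧ a2 + c2 < 2)) (h4 : ¬ (2 ≤ a2 ∧ 2 ≤ c2 ∧ 4 < a2 + c2))
    (h5 : ¬ (b2 ≤ 1 ∧ c2 ≤ 1 ∧ b2 + c2 < 2)) (h6 : ¬ (2 ≤ b2 ∧ 2 ≤ c2 ∧ 4 < b2 + c2)) :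
    False := by
  rcases ha with ha | ha <;> rcases hb with hb | hb <;> rcases le_or_gt c2 1 with hc | hc
  · exact h1 ⟨by linarith, by linarith, by linarith⟩
  · exact h1 ⟨by linarith, by linarith, by linarith⟩
  · exact h3 ⟨by linarith, by linarith, by linarith⟩
  · exact h6 ⟨by linarith, by linarith, by linarith⟩
  · exact h5 ⟨by linarith, by linarith, by linarith⟩
  · exact h4 ⟨by linarith, by linarith, by linarith⟩
  · exact h2 ⟨by linarith, by linarith, by linarith⟩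
  · exact h2 ⟨by linarith, by linarith, by linarith⟩

lemma PC.symm {u a1 a2 b1 b2 : ℤ} (h : PC u a1 a2 b1 b2) : PC u b1 b2 a1 a2 := by
  obtain ⟨h1, h2, h3, h4⟩ := h
  refine ⟨?_, ?_, ?_, ?_⟩
  · rintro ⟨x, y, z⟩; exact h1 ⟨y, x, by linarith⟩
  · rintro ⟨x, y, z⟩; exact h2 ⟨y, x, by linarith⟩
  · rintro ⟨x, y, z⟩; exact h3 ⟨y, x, by linarith⟩
  · rintro ⟨x, y, z⟩; exact h4 ⟨y, x, by linarith⟩

lemma low (u a1 a2 b1 b2 c1 c2 : ℤ)
    (ha : ¬ (u ≤ a1 ∧ a1 ≤ u + 1 ∧ 1 ≤ a2 ∧ a2 ≤ 2))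
    (hb : ¬ (u ≤ b1 ∧ b1 ≤ u + 1 ∧ 1 ≤ b2 ∧ b2 ≤ 2))
    (hab : PC u a1 a2 b1 b2) (hac : PC u a1 a2 c1 c2) (hbc : PC u b1 b2 c1 c2)
    (h : (a1 ≤ u ∧ b1 ≤ u) ∨ (u + 1 ≤ a1 ∧ u + 1 ≤ b1)) : False := by
  obtain ⟨p1, p2, p3, p4⟩ := hab
  obtain ⟨_, _, q3, q4⟩ := hac
  obtain ⟨_, _, r3, r4⟩ := hbc
  have hx : (a1 = u ∨ a1 = u + 1) ∧ (b1 = u ∨ b1 = u + 1) := by
    rcases h with ⟨h1, h2⟩ | ⟨h1, h2⟩
    · have : ¬ (a1 + b1 < 2 * u) := fun h3 => p1 ⟨h1, h2, h3⟩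
      omega
    · have : ¬ (2 * u + 2 < a1 + b1) := fun h3 => p2 ⟨h1, h2, h3⟩
      omega
  have ha2 : a2 ≤ 0 ∨ 3 ≤ a2 := by
    by_contra hcon
    apply ha
    refine ⟨?_, ?_, ?_, ?_⟩ <;> omega
  have hb2 : b2 ≤ 0 ∨ 3 ≤ b2 := by
    by_contra hcon
    apply hb
    refine ⟨?_, ?_, ?_, ?_⟩ <;> omega
  exact key2 a2 b2 c2 ha2 hb2 p3 p4 q3 q4 r3 r4

lemma notriple (u a1 a2 b1 b2 c1 c2 : ℤ)
    (ha : ¬ (u ≤ a1 ∧ a1 ≤ u + 1 ∧ 1 ≤ a2 ∧ a2 ≤ 2))
    (hb : ¬ (u ≤ b1 ∧ b1 ≤ u + 1 ∧ 1 ≤ b2 ∧ b2 ≤ 2))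
    (hc : ¬ (u ≤ c1 ∧ c1 ≤ u + 1 ∧ 1 ≤ c2 ∧ c2 ≤ 2))
    (hab : PC u a1 a2 b1 b2) (hac : PC u a1 a2 c1 c2) (hbc : PC u b1 b2 c1 c2) : False := by
  rcases le_or_gt a1 u with h1 | h1 <;> rcases le_or_gt b1 u with h2 | h2 <;>
    rcases le_or_gt c1 u with h3 | h3
  · exact low u a1 a2 b1 b2 c1 c2 ha hb hab hac hbc (Or.inl ⟨h1, h2⟩)
  · exact low u a1 a2 b1 b2 c1 c2 ha hb hab hac hbc (Or.inl ⟨h1, h2⟩)
  · exact low u a1 a2 c1 c2 b1 b2 ha hc hac hab hbc.symm (Or.inl ⟨h1, h3⟩)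
  · exact low u b1 b2 c1 c2 a1 a2 hb hc hbc hab.symm hac.symm (Or.inr ⟨h2, h3⟩)
  · exact low u b1 b2 c1 c2 a1 a2 hb hc hbc hab.symm hac.symm (Or.inl ⟨h2, h3⟩)
  · exact low u a1 a2 c1 c2 b1 b2 ha hc hac hab hbc.symm (Or.inr ⟨h1, h3⟩)
  · exact low u a1 a2 b1 b2 c1 c2 ha hb hab hac hbc (Or.inr ⟨h1, h2⟩)
  · exact low u a1 a2 b1 b2 c1 c2 ha hb hab hac hbc (Or.inr ⟨h1, h2⟩)

lemma weight {α β : ℝ} (hα : 0 < α) (hβ : 0 < β) (hαβ : α + β = 1) (u a b : ℤ) (ha : a ≤ u)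
    (hb : b ≤ u) (hab : a + b < 2 * u) : α * (a : ℝ) + β * (b : ℝ) < u := by
  have ha' : (a : ℝ) ≤ u := by exact_mod_cast ha
  have hb' : (b : ℝ) ≤ u := by exact_mod_cast hb
  have hab' : (a : ℝ) + b < 2 * u := by exact_mod_cast hab
  have e : (u : ℝ) = α * u + β * u := by rw [← add_mul, hαβ, one_mul]
  have k1 := mul_nonneg hα.le (sub_nonneg.2 ha')
  have k2 := mul_nonneg hβ.le (sub_nonneg.2 hb')
  rcases ha'.lt_or_eq with h | h
  · have k3 := mul_pos hα (sub_pos.2 h)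
    rw [mul_sub] at k2 k3
    linarith
  · have h' : (b : ℝ) < u := by linarith
    have k3 := mul_pos hβ (sub_pos.2 h')
    rw [mul_sub] at k1 k3
    linarith

lemma weight' {α β : ℝ} (hα : 0 < α) (hβ : 0 < β) (hαβ : α + β = 1) (u a b : ℤ) (ha : u ≤ a)
    (hb : u ≤ b) (hab : 2 * u < a + b) : (u : ℝ) < α * (a : ℝ) + β * (b : ℝ) := by
  have ha' : (u : ℝ) ≤ a := by exact_mod_cast ha
  have hb' : (u : ℝ) ≤ b := by exact_mod_cast hb
  have hab' : 2 * (u : ℝ) < a + b := by exact_mod_cast hab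
  have e : (u : ℝ) = α * u + β * u := by rw [← add_mul, hαβ, one_mul]
  have k1 := mul_nonneg hα.le (sub_nonneg.2 ha')
  have k2 := mul_nonneg hβ.le (sub_nonneg.2 hb')
  rcases ha'.lt_or_eq with h | h
  · have k3 := mul_pos hα (sub_pos.2 h)
    rw [mul_sub] at k2 k3
    linarith
  · have h' : (u : ℝ) < b := by linarith
    have k3 := mul_pos hβ (sub_pos.2 h')
    rw [mul_sub] at k1 k3
    linarith

/-- Hiding pairs beyond the `k`-th facet plane. -/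
lemma hide_pair {m k : ℕ} (hk : k < m) {p q : Fin 3 → ℤ} (hp : p ∉ X m) (hq : q ∉ X m)
    (fp : phi m k (p 0) (p 1) ≤ 0) (fq : phi m k (q 0) (q 1) ≤ 0)
    (hid : (segment ℝ (toR p) (toR q) ∩ conv (X m)).Nonempty) :
    phi m k (p 0) (p 1) = 0 ∧ phi m k (q 0) (q 1) = 0 ∧
      PC (k * D m) (p 0) (p 2) (q 0) (q 2) := by
  obtain ⟨s, ⟨α, β, hα, hβ, hαβ, rfl⟩, hs⟩ := hid
  have hα0 : 0 < α := by
    rcases hα.lt_or_eq with h | h
    · exact h
    · exfalso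
      rw [← h, zero_add] at hαβ
      rw [← h, hαβ, zero_smul, one_smul, zero_add] at hs
      exact hq ((lattice_convex m q).1 hs)
  have hβ0 : 0 < β := by
    rcases hβ.lt_or_eq with h | h
    · exact h
    · exfalso
      rw [← h, add_zero] at hαβ
      rw [← h, hαβ, zero_smul, one_smul, add_zero] at hs
      exact hp ((lattice_convex m p).1 hs)
  have e0 := conv_idx hs (Sum.inr (⟨k, hk⟩, 0))
  have e1 := conv_idx hs (Sum.inr (⟨k, hk⟩, 1))
  have e2 := conv_idx hs (Sum.inr (⟨k, hk⟩, 2))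
  have e3 := conv_idx hs (Sum.inr (⟨k, hk⟩, 3))
  have e4 := conv_idx hs (Sum.inr (⟨k, hk⟩, 4))
  simp [co, rh, Fin.sum_univ_three, toR] at e0 e1 e2 e3 e4
  have fp' : ((phi m k (p 0) (p 1) : ℤ) : ℝ) ≤ 0 := by exact_mod_cast fp
  have fq' : ((phi m k (q 0) (q 1) : ℤ) : ℝ) ≤ 0 := by exact_mod_cast fq
  have hphi : α * ((phi m k (p 0) (p 1) : ℤ) : ℝ) + β * ((phi m k (q 0) (q 1) : ℤ) : ℝ) =
      (α * (p 1 : ℝ) + β * (q 1 : ℝ)) - 2 * (k : ℝ) * (D m : ℝ) *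
        (α * (p 0 : ℝ) + β * (q 0 : ℝ)) + (k : ℝ) ^ 2 * (D m : ℝ) ^ 2 := by
    unfold phi
    push_cast
    have : β = 1 - α := by linarith
    rw [this]
    ring
  have hge : 0 ≤ α * ((phi m k (p 0) (p 1) : ℤ) : ℝ) + β * ((phi m k (q 0) (q 1) : ℤ) : ℝ) := by
    rw [hphi]
    linarith
  have hp0 : ((phi m k (p 0) (p 1) : ℤ) : ℝ) = 0 := by
    by_contra h
    have h1 : ((phi m k (p 0) (p 1) : ℤ) : ℝ) < 0 := lt_of_le_of_ne fp' h
    nlinarith [mul_pos hα0 (neg_pos.2 h1), mul_nonneg hβ (neg_nonneg.2 fq')]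
  have hq0 : ((phi m k (q 0) (q 1) : ℤ) : ℝ) = 0 := by
    by_contra h
    have h1 : ((phi m k (q 0) (q 1) : ℤ) : ℝ) < 0 := lt_of_le_of_ne fq' h
    nlinarith [mul_pos hβ0 (neg_pos.2 h1), mul_nonneg hα (neg_nonneg.2 fp')]
  rw [hp0, hq0, mul_zero, mul_zero, add_zero] at hphi
  have g1 : α * (p 0 : ℝ) + β * (q 0 : ℝ) ≤ (k : ℝ) * (D m : ℝ) + 1 := by
    nlinarith [congrArg (fun t => (C m : ℝ) * t) hphi]
  have g2 : (k : ℝ) * (D m : ℝ) ≤ α * (p 0 : ℝ) + β * (q 0 : ℝ) := by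
    nlinarith [congrArg (fun t => (C m : ℝ) * t) hphi]
  have g3 : α * (p 2 : ℝ) + β * (q 2 : ℝ) ≤ 2 := by
    nlinarith [congrArg (fun t => (C m : ℝ) * t) hphi]
  have g4 : 1 ≤ α * (p 2 : ℝ) + β * (q 2 : ℝ) := by
    nlinarith [congrArg (fun t => (C m : ℝ) * t) hphi]
  refine ⟨by exact_mod_cast hp0, by exact_mod_cast hq0, ?_, ?_, ?_, ?_⟩
  · rintro ⟨h1, h2, h3⟩
    have := weight hα0 hβ0 hαβ (k * D m) (p 0) (q 0) h1 h2 h3
    push_cast at this
    linarith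
  · rintro ⟨h1, h2, h3⟩
    have := weight' hα0 hβ0 hαβ (k * D m + 1) (p 0) (q 0) h1 h2 (by linarith)
    push_cast at this
    linarith
  · rintro ⟨h1, h2, h3⟩
    have := weight hα0 hβ0 hαβ 1 (p 2) (q 2) h1 h2 (by linarith)
    push_cast at this
    linarith
  · rintro ⟨h1, h2, h3⟩
    have := weight' hα0 hβ0 hαβ 2 (p 2) (q 2) h1 h2 (by linarith)
    push_cast at this
    linarith

/-- Every hiding set of `X m` has at most `2 m + 5` points. -/
lemma hiding_card {m : ℕ} {H : Finset (Fin 3 → ℤ)} (hH : IsHiding (X m) H) :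
    H.card ≤ 2 * m + 5 := by
  classical
  obtain ⟨hout, hhid⟩ := hH
  let S1 : Fin 5 → Finset (Fin 3 → ℤ) := fun i =>
    H.filter (fun p => rh m (Sum.inl i) < ∑ j, co m (Sum.inl i) j * p j)
  let S2 : Fin m → Finset (Fin 3 → ℤ) := fun k => H.filter (fun p => phi m k (p 0) (p 1) ≤ 0)
  have hcov : H ⊆ (univ : Finset (Fin 5)).biUnion S1 ∪ (univ : Finset (Fin m)).biUnion S2 := by
    intro p hp
    have hpX := hout p hp
    by_contra hcon
    simp only [mem_union, mem_biUnion, mem_univ, true_and, S1, S2, mem_filter, not_or,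
      not_exists, not_and, not_lt, not_le] at hcon
    obtain ⟨k1, k2⟩ := hcon
    apply hpX
    left
    have e0 := k1 0 hp
    have e1 := k1 1 hp
    have e2 := k1 2 hp
    have e3 := k1 3 hp
    have e4 := k1 4 hp
    simp [co, rh, Fin.sum_univ_three] at e0 e1 e2 e3 e4
    refine ⟨by linarith, by linarith, by linarith, by linarith, by linarith, ?_⟩
    intro k hk
    have := k2 ⟨k, hk⟩ hp
    simp only at this
    omega
  have hS1 : ∀ i ∈ (univ : Finset (Fin 5)), (S1 i).card ≤ 1 := by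
    intro i _
    rw [card_le_one]
    intro p hp q hq
    by_contra hpq
    simp only [S1, mem_filter] at hp hq
    refine not_hide (fun j => (co m (Sum.inl i) j : ℝ)) (rh m (Sum.inl i)) ?_ ?_ ?_
      (hhid p hp.1 q hq.1 hpq)
    · intro x hx
      exact_mod_cast (mem_iff m x).1 hx (Sum.inl i)
    · exact_mod_cast hp.2
    · exact_mod_cast hq.2
  have hS2 : ∀ k ∈ (univ : Finset (Fin m)), (S2 k).card ≤ 2 := by
    intro k _
    by_contra hcon
    push Not at hcon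
    obtain ⟨p, hp, q, hq, r, hr, hpq, hpr, hqr⟩ := two_lt_card.1 hcon
    simp only [S2, mem_filter] at hp hq hr
    obtain ⟨z1, z2, c1⟩ := hide_pair k.2 (hout p hp.1) (hout q hq.1) hp.2 hq.2
      (hhid p hp.1 q hq.1 hpq)
    obtain ⟨_, z3, c2⟩ := hide_pair k.2 (hout p hp.1) (hout r hr.1) hp.2 hr.2
      (hhid p hp.1 r hr.1 hpr)
    obtain ⟨_, _, c3⟩ := hide_pair k.2 (hout q hq.1) (hout r hr.1) hq.2 hr.2
      (hhid q hq.1 r hr.1 hqr)
    have nc : ∀ x : Fin 3 → ℤ, x ∉ X m → phi m (k : ℕ) (x 0) (x 1) = 0 →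
        ¬ ((k : ℕ) * D m ≤ x 0 ∧ x 0 ≤ (k : ℕ) * D m + 1 ∧ 1 ≤ x 2 ∧ x 2 ≤ 2) := by
      rintro x hx hz ⟨a1, a2, a3, a4⟩
      exact hx (Or.inr ⟨k, k.2, a1, a2, hz, a3, a4⟩)
    exact notriple _ _ _ _ _ _ _ (nc p (hout p hp.1) z1) (nc q (hout q hq.1) z2)
      (nc r (hout r hr.1) z3) c1 c2 c3
  have b1 := card_biUnion_le_card_mul (univ : Finset (Fin 5)) S1 1 hS1
  have b2 := card_biUnion_le_card_mul (univ : Finset (Fin m)) S2 2 hS2
  simp only [card_univ, Fintype.card_fin] at b1 b2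
  have b3 := card_le_card hcov
  have b4 := card_union_le ((univ : Finset (Fin 5)).biUnion S1) ((univ : Finset (Fin m)).biUnion S2)
  omega

lemma hidingBound_le (m : ℕ) : hidingBound (X m) ≤ 2 * m + 5 := by
  unfold hidingBound
  refine csSup_le ⟨0, ∅, ⟨by simp, by simp⟩, rfl⟩ ?_
  rintro n ⟨H, hH, rfl⟩
  exact hiding_card hH


/-! ### Every relaxation needs `3 m` inequalities -/

/-- The point of the `k`-th facet plane with first coordinate `x` and last coordinate `z`. -/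
def Cp (m : ℕ) (k x z : ℤ) : Fin 3 → ℤ := ![x, 2 * k * D m * x - k ^ 2 * D m ^ 2, z]

lemma Cp_phi (m : ℕ) (k x z : ℤ) : phi m k (Cp m k x z 0) (Cp m k x z 1) = 0 := by
  simp [Cp, phi]

lemma Cp_mem {m k : ℕ} (hk : k < m) {x z : ℤ} (h1 : k * D m ≤ x) (h2 : x ≤ k * D m + 1)
    (h3 : 1 ≤ z) (h4 : z ≤ 2) : Cp m k x z ∈ X m :=
  Or.inr ⟨k, hk, h1, h2, Cp_phi m k x z, h3, h4⟩

lemma Cp_add (m : ℕ) (k : ℤ) {x1 z1 x2 z2 x3 z3 x4 z4 : ℤ} (hx : x1 + x2 = x3 + x4)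
    (hz : z1 + z2 = z3 + z4) : Cp m k x1 z1 + Cp m k x2 z2 = Cp m k x3 z3 + Cp m k x4 z4 := by
  obtain rfl : x1 = x3 + x4 - x2 := by linarith
  funext i
  fin_cases i
  · simp [Cp]
  · simp [Cp]; ring
  · simp [Cp]; exact hz

/-- Offsets of the five witnesses. -/
def dx : Fin 5 → ℤ := ![-1, 1, 1, -1, 2]

/-- Heights of the five witnesses. -/
def dz : Fin 5 → ℤ := ![1, 3, 0, 2, 1]

/-- The five witnesses near the `k`-th cap. -/
def W (m : ℕ) (k : ℤ) (a : Fin 5) : Fin 3 → ℤ := Cp m k (k * D m + dx a) (dz a)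

lemma dx_bd (a : Fin 5) : -1 ≤ dx a ∧ dx a ≤ 2 := by fin_cases a <;> decide

lemma dz_bd (a : Fin 5) : 0 ≤ dz a ∧ dz a ≤ 3 := by fin_cases a <;> decide

lemma off (a : Fin 5) : ¬ (0 ≤ dx a ∧ dx a ≤ 1 ∧ 1 ≤ dz a ∧ dz a ≤ 2) := by
  fin_cases a <;> decide

lemma W_sep (m : ℕ) {j k : ℤ} (hjk : j ≠ k) (a : Fin 5) :
    D m ^ 2 - 4 * D m ≤ phi m k (W m j a 0) (W m j a 1) := by
  obtain ⟨h1, h2⟩ := dx_bd a
  refine sep m hjk ?_ ?_ (Cp_phi m j _ _)
  · simp only [W, Cp, Matrix.cons_val_zero]; linarith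
  · simp only [W, Cp, Matrix.cons_val_zero]; linarith

lemma W_not {m k : ℕ} (hk : k < m) (a : Fin 5) : W m k a ∉ X m := by
  rintro (h | ⟨j, hj, h1, h2, h3, h4, h5⟩)
  · have := base_phi h hk
    have h0 : phi m k (W m k a 0) (W m k a 1) = 0 := Cp_phi m k _ _
    omega
  · by_cases hjk : k = j
    · subst hjk
      apply off a
      simp only [W, Cp, Matrix.cons_val_zero, Matrix.cons_val] at h1 h2 h4 h5
      exact ⟨by linarith, by linarith, h4, h5⟩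
    · have h6 := W_sep m (j := (k : ℤ)) (k := (j : ℤ)) (by exact_mod_cast hjk) a
      have hD := D_ge10 m
      nlinarith

/-- A valid inequality is not violated at two points with the same sum as two points of `Y`. -/
lemma mid {d : ℕ} {Y : Set (Fin d → ℤ)} (a : Fin d → ℝ) (b : ℝ)
    (h : ∀ x ∈ Y, ∑ j, a j * (x j : ℝ) ≤ b) {u v w w' : Fin d → ℤ} (hu : u ∈ Y) (hv : v ∈ Y)
    (huv : w + w' = u + v) (hw : b < ∑ j, a j * (w j : ℝ)) (hw' : b < ∑ j, a j * (w' j : ℝ)) :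
    False := by
  have h1 := h u hu
  have h2 := h v hv
  have h3 : ∑ j, a j * (w j : ℝ) + ∑ j, a j * (w' j : ℝ) =
      ∑ j, a j * (u j : ℝ) + ∑ j, a j * (v j : ℝ) := by
    rw [← Finset.sum_add_distrib, ← Finset.sum_add_distrib]
    refine Finset.sum_congr rfl (fun j _ => ?_)
    have h4 := congrFun huv j
    simp only [Pi.add_apply] at h4
    have h5 : (w j : ℝ) + (w' j : ℝ) = (u j : ℝ) + (v j : ℝ) := by exact_mod_cast h4
    rw [← mul_add, ← mul_add, h5]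
  linarith

lemma W_box {m k : ℕ} (hk : k < m) (a : Fin 5) :
    -1 ≤ W m k a 0 ∧ W m k a 0 ≤ m * D m ∧ W m k a 1 ≤ M m ∧ 0 ≤ W m k a 2 ∧
      W m k a 2 ≤ 3 := by
  have hD := D_ge10 m
  have hk' : (k : ℤ) + 1 ≤ m := by exact_mod_cast hk
  have hk0 : (0 : ℤ) ≤ k := by positivity
  obtain ⟨h1, h2⟩ := dx_bd a
  obtain ⟨h3, h4⟩ := dz_bd a
  simp only [W, Cp, Matrix.cons_val_zero, Matrix.cons_val_one, Matrix.cons_val]
  refine ⟨by nlinarith, by nlinarith, ?_, h3, h4⟩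
  unfold M
  generalize D m = E at *
  generalize (k : ℤ) = K at *
  generalize (m : ℤ) = N at *
  generalize dx a = δ at *
  have a0 : 0 ≤ K * E := by positivity
  have a1 : (K * E) * δ ≤ (K * E) * 2 := mul_le_mul_of_nonneg_left h2 a0
  have a2 : (K * E) ^ 2 ≤ (N * E) ^ 2 := by
    apply pow_le_pow_left₀ a0
    nlinarith
  have a3 : K * E ≤ N * E := by nlinarith
  nlinarith

lemma cross {m i j : ℕ} (hi : i < m) (hj : j < m) (hij : i ≠ j) (a b : Fin 5) :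
    ∃ u ∈ X m, ∃ v ∈ X m, W m i a + W m j b = u + v := by
  obtain ⟨p1, p2, p3, p4, p5⟩ := W_box hi a
  obtain ⟨q1, q2, q3, q4, q5⟩ := W_box hj b
  have hD := D_ge10 m
  have hDm := D_ge m
  have hphi : ∀ k : ℕ, k < m → 2 * m * D m + 60 ≤
      phi m k (W m i a 0) (W m i a 1) + phi m k (W m j b 0) (W m j b 1) := by
    intro k hk
    have hE : D m ^ 2 - 4 * D m = 2 * m * D m + 6 * D m := by
      have : D m = 2 * m + 10 := rfl
      rw [this]; ring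
    by_cases h1 : i = k
    · subst h1
      have h2 : phi m i (W m i a 0) (W m i a 1) = 0 := Cp_phi m i _ _
      have h3 := W_sep m (j := (j : ℤ)) (k := (i : ℤ)) (by exact_mod_cast (Ne.symm hij)) b
      rw [h2]
      linarith
    · have h3 := W_sep m (j := (i : ℤ)) (k := (k : ℤ)) (by exact_mod_cast h1) a
      by_cases h4 : j = k
      · subst h4
        have h2 : phi m j (W m j b 0) (W m j b 1) = 0 := Cp_phi m j _ _
        rw [h2]
        linarith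
      · have h5 := W_sep m (j := (j : ℤ)) (k := (k : ℤ)) (by exact_mod_cast h4) b
        have h6 : 0 ≤ 2 * (m : ℤ) * D m := by positivity
        linarith
  generalize hw : W m i a = w at *
  generalize hw' : W m j b = w' at *
  refine ⟨fun t => (w t + w' t) / 2, Or.inl ?_, fun t => (w t + w' t) - (w t + w' t) / 2,
    Or.inl ?_, ?_⟩
  · refine ⟨?_, ?_, ?_, ?_, ?_, ?_⟩
    · dsimp only; omega
    · dsimp only; omega
    · dsimp only; omega
    · dsimp only; omega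
    · dsimp only; omega
    intro k hk
    have h1 := hphi k hk
    have hk0 : (0 : ℤ) ≤ k := by positivity
    have h2 : 2 * ((w 0 + w' 0) / 2) ≤ w 0 + w' 0 := by omega
    have h3 : w 1 + w' 1 - 1 ≤ 2 * ((w 1 + w' 1) / 2) := by omega
    unfold phi at h1 ⊢
    dsimp only
    generalize (w 0 + w' 0) / 2 = x at *
    generalize (w 1 + w' 1) / 2 = y at *
    have h4 : 0 ≤ (k : ℤ) * D m := by positivity
    have h5 : (k : ℤ) * D m * (2 * x) ≤ k * D m * (w 0 + w' 0) :=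
      mul_le_mul_of_nonneg_left h2 h4
    have h6 : 0 ≤ 2 * (m : ℤ) * D m := by positivity
    have : 1 ≤ 2 * (y - 2 * k * D m * x + k ^ 2 * D m ^ 2) := by nlinarith
    omega
  · refine ⟨?_, ?_, ?_, ?_, ?_, ?_⟩
    · dsimp only; omega
    · dsimp only; omega
    · dsimp only; omega
    · dsimp only; omega
    · dsimp only; omega
    intro k hk
    have h1 := hphi k hk
    have hk0 : (0 : ℤ) ≤ k := by positivity
    have hk' : (k : ℤ) ≤ m := by exact_mod_cast hk.le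
    have h2 : 2 * ((w 0 + w' 0) - (w 0 + w' 0) / 2) ≤ w 0 + w' 0 + 1 := by omega
    have h3 : w 1 + w' 1 ≤ 2 * ((w 1 + w' 1) - (w 1 + w' 1) / 2) := by omega
    unfold phi at h1 ⊢
    dsimp only
    generalize (w 0 + w' 0) - (w 0 + w' 0) / 2 = x at *
    generalize (w 1 + w' 1) - (w 1 + w' 1) / 2 = y at *
    have h4 : 0 ≤ (k : ℤ) * D m := by positivity
    have h5 : (k : ℤ) * D m * (2 * x) ≤ k * D m * (w 0 + w' 0 + 1) :=
      mul_le_mul_of_nonneg_left h2 h4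
    have h6 : (k : ℤ) * D m ≤ m * D m := by nlinarith
    have : 1 ≤ 2 * (y - 2 * k * D m * x + k ^ 2 * D m ^ 2) := by nlinarith
    omega
  · funext t
    simp only [Pi.add_apply]
    ring

lemma cycle5 {α : Type*} [DecidableEq α] (g : Fin 5 → α) (h0 : g 0 ≠ g 1) (h1 : g 1 ≠ g 2)
    (h2 : g 2 ≠ g 3) (h3 : g 3 ≠ g 4) (h4 : g 4 ≠ g 0) :
    3 ≤ ((univ : Finset (Fin 5)).image g).card := by
  have hm : ∀ i, g i ∈ (univ : Finset (Fin 5)).image g := fun i => mem_image_of_mem g (mem_univ i)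
  have : 2 < ((univ : Finset (Fin 5)).image g).card := by
    rw [two_lt_card]
    by_cases e1 : g 2 = g 0
    · by_cases e2 : g 3 = g 1
      · exact ⟨g 0, hm 0, g 1, hm 1, g 4, hm 4, h0, h4.symm, fun e => h3 (e2.trans e)⟩
      · exact ⟨g 0, hm 0, g 1, hm 1, g 3, hm 3, h0, fun e => h2 (e1.trans e), Ne.symm e2⟩
    · exact ⟨g 0, hm 0, g 1, hm 1, g 2, hm 2, h0, Ne.symm e1, h1⟩
  omega

lemma rc_lower {m n : ℕ} (A : Matrix (Fin n) (Fin 3) ℝ) (b : Fin n → ℝ)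
    (h : IsRelaxation (Poly A b) (X m)) : 3 * m ≤ n := by
  have hval : ∀ i, ∀ x ∈ X m, ∑ j, A i j * (x j : ℝ) ≤ b i := by
    intro i x hx
    exact (h x).2 hx i
  have hviol : ∀ (k : Fin m) (a : Fin 5), ∃ i, b i < ∑ j, A i j * ((W m (k : ℕ) a j : ℤ) : ℝ) := by
    intro k a
    by_contra hcon
    push Not at hcon
    exact W_not k.2 a ((h _).1 hcon)
  choose g hg using hviol
  have hsame : ∀ (k l : Fin m) (a c : Fin 5) (u v : Fin 3 → ℤ), u ∈ X m → v ∈ X m →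
      W m (k : ℕ) a + W m (l : ℕ) c = u + v → g k a ≠ g l c := by
    intro k l a c u v hu hv huv heq
    refine mid (fun j => A (g k a) j) (b (g k a)) (hval _) hu hv huv (hg k a) ?_
    have := hg l c
    rw [← heq] at this
    exact this
  have hcard : ∀ k : Fin m, 3 ≤ ((univ : Finset (Fin 5)).image (g k)).card := by
    intro k
    have mem : ∀ x z : ℤ, (k : ℕ) * D m ≤ x → x ≤ (k : ℕ) * D m + 1 → 1 ≤ z → z ≤ 2 →
        Cp m (k : ℕ) x z ∈ X m := fun x z h1 h2 h3 h4 => Cp_mem k.2 h1 h2 h3 h4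
    have d0 : dx 0 = -1 := rfl
    have d1 : dx 1 = 1 := rfl
    have d2 : dx 2 = 1 := rfl
    have d3 : dx 3 = -1 := rfl
    have d4 : dx 4 = 2 := rfl
    have z0 : dz 0 = 1 := rfl
    have z1 : dz 1 = 3 := rfl
    have z2 : dz 2 = 0 := rfl
    have z3 : dz 3 = 2 := rfl
    have z4 : dz 4 = 1 := rfl
    refine cycle5 (g k) ?_ ?_ ?_ ?_ ?_
    · exact hsame k k 0 1 _ _ (mem ((k : ℕ) * D m) 2 (by linarith) (by linarith) (by norm_num)
        (by norm_num)) (mem ((k : ℕ) * D m) 2 (by linarith) (by linarith) (by norm_num)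
        (by norm_num)) (Cp_add m _ (by rw [d0, d1]; ring) (by rw [z0, z1]; norm_num))
    · exact hsame k k 1 2 _ _ (mem ((k : ℕ) * D m + 1) 1 (by linarith) (by linarith)
        (by norm_num) (by norm_num)) (mem ((k : ℕ) * D m + 1) 2 (by linarith) (by linarith)
        (by norm_num) (by norm_num)) (Cp_add m _ (by rw [d1, d2]) (by rw [z1, z2]; norm_num))
    · exact hsame k k 2 3 _ _ (mem ((k : ℕ) * D m) 1 (by linarith) (by linarith) (by norm_num)
        (by norm_num)) (mem ((k : ℕ) * D m) 1 (by linarith) (by linarith) (by norm_num)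
        (by norm_num)) (Cp_add m _ (by rw [d2, d3]; ring) (by rw [z2, z3]; norm_num))
    · exact hsame k k 3 4 _ _ (mem ((k : ℕ) * D m) 1 (by linarith) (by linarith) (by norm_num)
        (by norm_num)) (mem ((k : ℕ) * D m + 1) 2 (by linarith) (by linarith) (by norm_num)
        (by norm_num)) (Cp_add m _ (by rw [d3, d4]; ring) (by rw [z3, z4]; norm_num))
    · exact hsame k k 4 0 _ _ (mem ((k : ℕ) * D m) 1 (by linarith) (by linarith) (by norm_num)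
        (by norm_num)) (mem ((k : ℕ) * D m + 1) 1 (by linarith) (by linarith) (by norm_num)
        (by norm_num)) (Cp_add m _ (by rw [d4, d0]; ring) (by rw [z4, z0]))
  have hdisj : ∀ k ∈ (univ : Finset (Fin m)), ∀ l ∈ (univ : Finset (Fin m)), k ≠ l →
      Disjoint ((univ : Finset (Fin 5)).image (g k)) ((univ : Finset (Fin 5)).image (g l)) := by
    intro k _ l _ hkl
    rw [disjoint_left]
    intro i hi hi'
    simp only [mem_image, mem_univ, true_and] at hi hi'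
    obtain ⟨a, ha⟩ := hi
    obtain ⟨c, hc⟩ := hi'
    obtain ⟨u, hu, v, hv, huv⟩ := cross k.2 l.2 (fun e => hkl (Fin.ext e)) a c
    exact hsame k l a c u v hu hv huv (ha.trans hc.symm)
  have h1 := card_biUnion hdisj
  have h2 : ∑ k : Fin m, 3 ≤ ∑ k : Fin m, ((univ : Finset (Fin 5)).image (g k)).card :=
    sum_le_sum (fun k _ => hcard k)
  have h3 := card_le_univ ((univ : Finset (Fin m)).biUnion
    (fun k => (univ : Finset (Fin 5)).image (g k)))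
  simp only [sum_const, card_univ, Fintype.card_fin, smul_eq_mul] at h2 h3
  omega

lemma le_rc (m : ℕ) : 3 * m ≤ rc (X m) := by
  unfold rc
  obtain ⟨n, A, b, h⟩ := exists_relax m
  refine le_csInf ⟨n, A, b, h⟩ ?_
  rintro n' ⟨A', b', h'⟩
  exact rc_lower A' b' h'

/-- **In dimension 3 the difference `rc(X) - H(X)` is unbounded**, so no constant `h_3` works. -/
theorem result :
    (∀ h : ℕ, ∃ Y : Set (Fin 3 → ℤ), Y.Finite ∧ LatticeConvex Y ∧ FullDim Y ∧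
      hidingBound Y + h < rc Y) ∧
    ¬ (∀ d : ℕ, ∃ h : ℕ, ∀ Y : Set (Fin d → ℤ), Y.Finite → LatticeConvex Y → FullDim Y →
      rc Y ≤ hidingBound Y + h) := by
  have key : ∀ h : ℕ, ∃ Y : Set (Fin 3 → ℤ), Y.Finite ∧ LatticeConvex Y ∧ FullDim Y ∧
      hidingBound Y + h < rc Y := by
    intro h
    refine ⟨X (h + 6), finite_X (by omega), lattice_convex _, full_dim (by omega), ?_⟩
    have h1 := hidingBound_le (h + 6)
    have h2 := le_rc (h + 6)
    omega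
  refine ⟨key, fun hall => ?_⟩
  obtain ⟨h, hh⟩ := hall 3
  obtain ⟨Y, h1, h2, h3, h4⟩ := key h
  have := hh Y h1 h2 h3
  omega

end Pool.Agent.Results.MP_288038_co.HidingGap
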